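import Mathlib

/-!
Uniqueness of maxima in the mirror Markov tree.
-/

namespace Pool.Agent.Results.MP_6870a6_co.MirrorMarkovUniqueness

open Polynomial LaurentPolynomial

/-- The symmetrization `X(q) = x(q) x(q⁻¹)`. -/
noncomputable def sym (x : ℤ[X]) : ℤ[T;T⁻¹] := toLaurent x * invert (toLaurent x)

/-- `z` is the quotient `q ^ (deg c) (q ^ s X + C) / ỹ`, where `X`, `C` are the symmetrizations of
`x`, `c` and `ỹ` is the mirror image of `y`. -/
def IsMutation (s : ℤ) (x c y z : ℤ[X]) : Prop :=
  toLaurent (z * y.reverse) = T (c.natDegree : ℤ) * (T s * sym x + sym c)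

/-- The positions in the mirror Markov tree: the two top vertices and, below them, the vertex `t₀`
(the empty list) with its descendants; the list records the steps from `t₀`, the last step first,
`false` for a left child and `true` for a right child. -/
inductive Pos
  | top0
  | top1
  | node (w : List Bool)

/-- `At v ε a b c` says that the triple `(a, b, c)` stands at the position `v` of the mirror Markov
tree, and that the edge entering it has sign `ε` (the sign at the two top positions is not used). -/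
inductive At : Pos → ℤ → ℤ[X] → ℤ[X] → ℤ[X] → Prop
  | top0 : At Pos.top0 1 1 1 1
  | top1 : At Pos.top1 1 1 1 (1 + X)
  | root : At (Pos.node []) 1 1 (1 + X) (1 + 2 * X + 2 * X ^ 2)
  | left (w : List Bool) (ε : ℤ) (a b c z : ℤ[X]) (h : At (Pos.node w) ε a b c)
      (hz : IsMutation ε a c b z) : At (Pos.node (false :: w)) ε a c z
  | right (w : List Bool) (ε : ℤ) (a b c z : ℤ[X]) (h : At (Pos.node w) ε a b c)
      (hz : IsMutation (-ε) b c a z) : At (Pos.node (true :: w)) (-ε) b c z

/-! ### The numerical tree -/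

/-- Numerical data of a vertex. -/
structure St where
  e : ℤ
  ua : ℤ
  ma : ℤ
  ub : ℤ
  mb : ℤ
  uc : ℤ
  mc : ℤ

/-- The numerical mutations. -/
def step (x : Bool) (S : St) : St :=
  if x = true then
    ⟨-S.e, S.ub, S.mb, S.uc, S.mc, 3 * S.mb * S.uc - S.ua, 3 * S.mb * S.mc - S.ma⟩
  else
    ⟨S.e, S.ua, S.ma, S.uc, S.mc, 3 * S.ma * S.uc - S.ub, 3 * S.ma * S.mc - S.mb⟩

/-- The data of `t₀`. -/
def S0 : St := ⟨1, 0, 1, 1, 2, 2, 5⟩

/-- The invariants. -/
structure Good (S : St) : Prop where
  he : S.e = 1 ∨ S.e = -1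
  pa : 0 < S.ma
  pb : 0 < S.mb
  pc : 5 ≤ S.mc
  hab : S.ma < S.mc
  hbc : S.mb < S.mc
  i1 : S.e * (S.uc * S.ma - S.ua * S.mc) = S.mb
  i2 : S.e * (S.ub * S.mc - S.uc * S.mb) = S.ma
  i3 : S.e * (S.ub * S.ma - S.ua * S.mb) = 3 * S.ma * S.mb - S.mc
  mrk : S.ma ^ 2 + S.mb ^ 2 + S.mc ^ 2 = 3 * S.ma * S.mb * S.mc
  cab : IsCoprime S.ma S.mb
  cac : IsCoprime S.ma S.mc
  cbc : IsCoprime S.mb S.mc
  bua : 0 ≤ S.ua ∧ S.ua < S.ma
  bub : 0 ≤ S.ub ∧ S.ub < S.mb
  buc : 0 ≤ S.uc ∧ S.uc < S.mc

theorem good_S0 : Good S0 := by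
  refine ⟨Or.inl rfl, by decide, by decide, by decide, by decide, by decide, by decide,
    by decide, by decide, by decide, ?_, ?_, ?_, by decide, by decide, by decide⟩
  · exact ⟨1, 0, by decide⟩
  · exact ⟨1, 0, by decide⟩
  · exact ⟨-2, 1, by decide⟩

theorem mid {e ua ma ub mb u m : ℤ} (he : e = 1 ∨ e = -1) (hma : 0 < ma) (hmb : 0 < mb)
    (hm : 0 < m) (h1 : 0 < e * (u * ma - ua * m)) (h2 : 0 < e * (ub * m - u * mb))
    (ba : 0 ≤ ua ∧ ua < ma) (bb : 0 ≤ ub ∧ ub < mb) : 0 ≤ u ∧ u < m := by
  rcases he with rfl | rfl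
  · constructor
    · by_contra hneg
      push Not at hneg
      have : u * ma < 0 := mul_neg_of_neg_of_pos hneg hma
      have : 0 ≤ ua * m := mul_nonneg ba.1 hm.le
      linarith
    · by_contra hge
      push Not at hge
      have h3 : m * mb ≤ u * mb := mul_le_mul_of_nonneg_right hge hmb.le
      have h4 : ub * m ≤ mb * m := mul_le_mul_of_nonneg_right bb.2.le hm.le
      nlinarith
  · constructor
    · by_contra hneg
      push Not at hneg
      have : u * mb < 0 := mul_neg_of_neg_of_pos hneg hmb
      have : 0 ≤ ub * m := mul_nonneg bb.1 hm.le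
      linarith
    · by_contra hge
      push Not at hge
      have h3 : m * ma ≤ u * ma := mul_le_mul_of_nonneg_right hge hma.le
      have h4 : ua * m ≤ ma * m := mul_le_mul_of_nonneg_right ba.2.le hm.le
      nlinarith

theorem good_step (x : Bool) {S : St} (h : Good S) : Good (step x S) := by
  obtain ⟨he, pa, pb, pc, hab, hbc, i1, i2, i3, mrk, cab, cac, cbc, bua, bub, buc⟩ := h
  have hc0 : 0 < S.mc := by linarith
  cases x with
  | false =>
    have hN : S.mc < 3 * S.ma * S.mc - S.mb := by nlinarith
    have j1 : S.e * ((3 * S.ma * S.uc - S.ub) * S.ma - S.ua * (3 * S.ma * S.mc - S.mb)) = S.mc := by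
      linear_combination 3 * S.ma * i1 - i3
    have j2 : S.e * (S.uc * (3 * S.ma * S.mc - S.mb) - (3 * S.ma * S.uc - S.ub) * S.mc) = S.ma := by
      linear_combination i2
    have hmid := mid (u := 3 * S.ma * S.uc - S.ub) (m := 3 * S.ma * S.mc - S.mb) he pa hc0
      (by linarith) (by rw [j1]; exact hc0) (by rw [j2]; exact pa) bua buc
    refine ⟨he, pa, hc0, ?_, ?_, hN, j1, j2, ?_, ?_, cac, ?_, ?_, bua, buc, hmid⟩
    · show 5 ≤ 3 * S.ma * S.mc - S.mb
      linarith
    · show S.ma < 3 * S.ma * S.mc - S.mb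
      linarith
    · show S.e * (S.uc * S.ma - S.ua * S.mc) = 3 * S.ma * S.mc - (3 * S.ma * S.mc - S.mb)
      linarith
    · show S.ma ^ 2 + S.mc ^ 2 + (3 * S.ma * S.mc - S.mb) ^ 2 =
        3 * S.ma * S.mc * (3 * S.ma * S.mc - S.mb)
      linear_combination mrk
    · show IsCoprime S.ma (3 * S.ma * S.mc - S.mb)
      obtain ⟨p, q, hpq⟩ := cab
      exact ⟨p + 3 * q * S.mc, -q, by linear_combination hpq⟩
    · show IsCoprime S.mc (3 * S.ma * S.mc - S.mb)
      obtain ⟨p, q, hpq⟩ := cbc
      exact ⟨q + 3 * p * S.ma, -p, by linear_combination hpq⟩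
  | true =>
    have hN : S.mc < 3 * S.mb * S.mc - S.ma := by nlinarith
    have he' : -S.e = 1 ∨ -S.e = -1 := by
      rcases he with h | h
      · right; rw [h]
      · left; rw [h]; rfl
    have j1 : -S.e * ((3 * S.mb * S.uc - S.ua) * S.mb - S.ub * (3 * S.mb * S.mc - S.ma)) =
        S.mc := by
      linear_combination 3 * S.mb * i2 - i3
    have j2 : -S.e * (S.uc * (3 * S.mb * S.mc - S.ma) - (3 * S.mb * S.uc - S.ua) * S.mc) =
        S.mb := by
      linear_combination i1
    have hmid := mid (u := 3 * S.mb * S.uc - S.ua) (m := 3 * S.mb * S.mc - S.ma) he' pb hc0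
      (by linarith) (by rw [j1]; exact hc0) (by rw [j2]; exact pb) bub buc
    refine ⟨he', pb, hc0, ?_, ?_, hN, j1, j2, ?_, ?_, cbc, ?_, ?_, bub, buc, hmid⟩
    · show 5 ≤ 3 * S.mb * S.mc - S.ma
      linarith
    · show S.mb < 3 * S.mb * S.mc - S.ma
      linarith
    · show -S.e * (S.uc * S.mb - S.ub * S.mc) = 3 * S.mb * S.mc - (3 * S.mb * S.mc - S.ma)
      linarith
    · show S.mb ^ 2 + S.mc ^ 2 + (3 * S.mb * S.mc - S.ma) ^ 2 =
        3 * S.mb * S.mc * (3 * S.mb * S.mc - S.ma)
      linear_combination mrk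
    · show IsCoprime S.mb (3 * S.mb * S.mc - S.ma)
      obtain ⟨p, q, hpq⟩ := cab
      exact ⟨q + 3 * p * S.mc, -p, by linear_combination hpq⟩
    · show IsCoprime S.mc (3 * S.mb * S.mc - S.ma)
      obtain ⟨p, q, hpq⟩ := cac
      exact ⟨q + 3 * p * S.mb, -p, by linear_combination hpq⟩

/-- The data of a descendant; the first step is the head of the list. -/
def run : St → List Bool → St
  | S, [] => S
  | S, x :: w => run (step x S) w

theorem good_run (w : List Bool) : ∀ {S : St}, Good S → Good (run S w) := by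
  induction w with
  | nil => intro S h; exact h
  | cons x w ih => intro S h; exact ih (good_step x h)

theorem desc (w : List Bool) : ∀ {S : St}, Good S →
    0 < S.e * ((run S w).uc * S.ma - S.ua * (run S w).mc) ∧
    0 < S.e * (S.ub * (run S w).mc - (run S w).uc * S.mb) := by
  induction w with
  | nil =>
    intro S h
    simp only [run]
    rw [h.i1, h.i2]
    exact ⟨h.pb, h.pa⟩
  | cons x w ih =>
    intro S h
    have hg := good_step x h
    have hr := good_run w hg
    have hd := ih hg
    have hc0 : 0 < S.mc := by linarith [h.pc]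
    have hc1 : 0 < (run (step x S) w).mc := by linarith [hr.pc]
    show 0 < S.e * ((run (step x S) w).uc * S.ma - S.ua * (run (step x S) w).mc) ∧
      0 < S.e * (S.ub * (run (step x S) w).mc - (run (step x S) w).uc * S.mb)
    generalize run (step x S) w = R at hd hc1 ⊢
    cases x with
    | false =>
      obtain ⟨h1, h2⟩ := hd
      change 0 < S.e * (R.uc * S.ma - S.ua * R.mc) at h1
      change 0 < S.e * (S.uc * R.mc - R.uc * S.mc) at h2
      refine ⟨h1, ?_⟩
      have key : S.mc * (S.e * (S.ub * R.mc - R.uc * S.mb)) =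
          R.mc * (S.e * (S.ub * S.mc - S.uc * S.mb)) +
          S.mb * (S.e * (S.uc * R.mc - R.uc * S.mc)) := by ring
      rw [h.i2] at key
      have : 0 < S.mc * (S.e * (S.ub * R.mc - R.uc * S.mb)) := by
        rw [key]
        exact add_pos (mul_pos hc1 h.pa) (mul_pos h.pb h2)
      exact (mul_pos_iff_of_pos_left hc0).1 this
    | true =>
      obtain ⟨h1, h2⟩ := hd
      change 0 < -S.e * (R.uc * S.mb - S.ub * R.mc) at h1
      change 0 < -S.e * (S.uc * R.mc - R.uc * S.mc) at h2
      refine ⟨?_, by linarith⟩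
      have key : S.mc * (S.e * (R.uc * S.ma - S.ua * R.mc)) =
          R.mc * (S.e * (S.uc * S.ma - S.ua * S.mc)) +
          S.ma * (-S.e * (S.uc * R.mc - R.uc * S.mc)) := by ring
      rw [h.i1] at key
      have : 0 < S.mc * (S.e * (R.uc * S.ma - S.ua * R.mc)) := by
        rw [key]
        exact add_pos (mul_pos hc1 h.pb) (mul_pos h.pa h2)
      exact (mul_pos_iff_of_pos_left hc0).1 this

theorem desc_left (w : List Bool) {S : St} (h : Good S) :
    0 < S.e * (S.uc * (run S (false :: w)).mc - (run S (false :: w)).uc * S.mc) :=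
  (desc w (good_step false h)).2

theorem desc_right (w : List Bool) {S : St} (h : Good S) :
    0 < -S.e * (S.uc * (run S (true :: w)).mc - (run S (true :: w)).uc * S.mc) :=
  (desc w (good_step true h)).2

theorem run_inj (w : List Bool) : ∀ (w' : List Bool) {S : St}, Good S →
    (run S w).uc = (run S w').uc → (run S w).mc = (run S w').mc → w = w' := by
  induction w with
  | nil =>
    intro w' S h h1 h2
    cases w' with
    | nil => rfl
    | cons x w' =>
      exfalso
      change S.uc = _ at h1
      change S.mc = _ at h2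
      cases x with
      | false =>
        have := desc_left w' h
        rw [← h1, ← h2] at this
        simp at this
      | true =>
        have := desc_right w' h
        rw [← h1, ← h2] at this
        simp at this
  | cons x w ih =>
    intro w' S h h1 h2
    cases w' with
    | nil =>
      exfalso
      change _ = S.uc at h1
      change _ = S.mc at h2
      cases x with
      | false =>
        have := desc_left w h
        rw [h1, h2] at this
        simp at this
      | true =>
        have := desc_right w h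
        rw [h1, h2] at this
        simp at this
    | cons y w' =>
      cases x with
      | false =>
        cases y with
        | false =>
          have := ih w' (good_step false h) h1 h2
          rw [this]
        | true =>
          exfalso
          have a1 := desc_left w h
          have a2 := desc_right w' h
          rw [h1, h2] at a1
          linarith
      | true =>
        cases y with
        | true =>
          have := ih w' (good_step true h) h1 h2
          rw [this]
        | false =>
          exfalso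
          have a1 := desc_right w h
          have a2 := desc_left w' h
          rw [h1, h2] at a1
          linarith

/-- The data of the position `w` (last step first). -/
def dat (w : List Bool) : St := w.foldr step S0

theorem dat_run (w : List Bool) : dat w = run S0 w.reverse := by
  have h : ∀ (l : List Bool) (S : St), run S l = l.foldl (fun S x => step x S) S := by
    intro l
    induction l with
    | nil => intro S; rfl
    | cons x l ih => intro S; exact ih (step x S)
  rw [h, List.foldl_reverse]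
  rfl

theorem good_dat (w : List Bool) : Good (dat w) := by
  rw [dat_run]; exact good_run _ good_S0

theorem dat_inj {w w' : List Bool} (h1 : (dat w).uc = (dat w').uc)
    (h2 : (dat w).mc = (dat w').mc) : w = w' := by
  rw [dat_run, dat_run] at h1 h2
  exact List.reverse_injective (run_inj _ _ good_S0 h1 h2)

/-! ### Evaluation at `1` and at `i` -/

/-- The imaginary unit. -/
def im : GaussianInt := ⟨0, 1⟩

/-- The imaginary unit as a unit. -/
def imu : GaussianIntˣ := ⟨⟨0, 1⟩, ⟨0, -1⟩, by decide, by decide⟩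

/-- Evaluation at `i`. -/
noncomputable def ev (x : ℤ[X]) : GaussianInt := x.eval₂ (Int.castRingHom GaussianInt) im

/-- Evaluation of Laurent polynomials at `i`. -/
noncomputable def E : ℤ[T;T⁻¹] →+* GaussianInt :=
  LaurentPolynomial.eval₂ (Int.castRingHom GaussianInt) imu

theorem E_toLaurent (x : ℤ[X]) : E (toLaurent x) = ev x := by
  unfold E ev
  rw [LaurentPolynomial.eval₂_toLaurent]
  rfl

theorem E_invert (x : ℤ[X]) : E (invert (toLaurent x)) = star (ev x) := by
  have h : ∀ y : ℤ[X], E (invert (toLaurent y)) = star (ev y) := by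
    intro y
    induction y using Polynomial.induction_on' with
    | add p q hp hq =>
      have : ev (p + q) = ev p + ev q := by unfold ev; rw [Polynomial.eval₂_add]
      rw [map_add, map_add, map_add, hp, hq, this, star_add]
    | monomial n a =>
      rw [← Polynomial.C_mul_X_pow_eq_monomial, Polynomial.toLaurent_C_mul_X_pow, map_mul,
        invert_C, invert_T, map_mul]
      have h1 : ev (Polynomial.C a * Polynomial.X ^ n) = (a : GaussianInt) * im ^ n := by
        unfold ev
        rw [Polynomial.eval₂_mul, Polynomial.eval₂_C, Polynomial.eval₂_pow, Polynomial.eval₂_X]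
        rfl
      have h2 : E (LaurentPolynomial.C a) = (a : GaussianInt) := by
        unfold E; rw [LaurentPolynomial.eval₂_C]; rfl
      have h3 : E (T (-(n : ℤ)) : ℤ[T;T⁻¹]) = (star im) ^ n := by
        unfold E
        rw [LaurentPolynomial.eval₂_T_neg_n]
        congr 1
      rw [h1, h2, h3, star_mul, star_pow]
      have h4 : star (a : GaussianInt) = (a : GaussianInt) := by
        ext <;> simp
      rw [h4, mul_comm]
  exact h x

/-- Evaluation of Laurent polynomials at `1`. -/
noncomputable def E1 : ℤ[T;T⁻¹] →+* ℤ := LaurentPolynomial.eval₂ (RingHom.id ℤ) 1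

theorem E1_toLaurent (x : ℤ[X]) : E1 (toLaurent x) = x.eval 1 := by
  unfold E1
  rw [LaurentPolynomial.eval₂_toLaurent]
  rfl

theorem E1_T (n : ℤ) : E1 (T n) = 1 := by
  unfold E1; rw [LaurentPolynomial.eval₂_T]; simp

theorem E1_invert (x : ℤ[X]) : E1 (invert (toLaurent x)) = x.eval 1 := by
  induction x using Polynomial.induction_on' with
  | add p q hp hq => rw [map_add, map_add, map_add, hp, hq, Polynomial.eval_add]
  | monomial n a =>
    rw [← Polynomial.C_mul_X_pow_eq_monomial, Polynomial.toLaurent_C_mul_X_pow, map_mul,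
      invert_C, invert_T, map_mul, E1_T]
    simp [E1]

theorem E_T (n : ℤ) : E (T n) = ((imu ^ n : GaussianIntˣ) : GaussianInt) := by
  unfold E; rw [LaurentPolynomial.eval₂_T]

theorem norm_unit (u : GaussianIntˣ) : (u : GaussianInt).norm = 1 := by
  have h1 : ((u : GaussianInt).norm).natAbs = 1 := Zsqrtd.norm_eq_one_iff.2 u.isUnit
  have h2 := GaussianInt.norm_nonneg (u : GaussianInt)
  omega

theorem E_sym (x : ℤ[X]) : E (sym x) = (((ev x).norm : ℤ) : GaussianInt) := by
  unfold sym
  rw [map_mul, E_toLaurent, E_invert, Zsqrtd.norm_eq_mul_conj]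

theorem mutation_one {s : ℤ} {x c y z : ℤ[X]} (h : IsMutation s x c y z) :
    z.eval 1 * y.eval 1 = x.eval 1 ^ 2 + c.eval 1 ^ 2 := by
  unfold IsMutation at h
  rw [map_mul, toLaurent_reverse] at h
  have := congrArg E1 h
  simp only [map_mul, map_add, sym, E1_toLaurent, E1_invert, E1_T] at this
  linarith

theorem E_T_sign {s : ℤ} (hs : s = 1 ∨ s = -1) : E (T s) = (s : GaussianInt) * im := by
  rw [E_T]
  rcases hs with rfl | rfl
  · simp [imu, im]
  · ext <;> simp [imu, im]

theorem mutation_i {s : ℤ} (hs : s = 1 ∨ s = -1) {x c y z : ℤ[X]} (h : IsMutation s x c y z) :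
    (ev z).norm * (ev y).norm = (ev x).norm ^ 2 + (ev c).norm ^ 2 ∧
    ev z ∣ (((ev c).norm : ℤ) : GaussianInt) + ((s * (ev x).norm : ℤ) : GaussianInt) * im := by
  unfold IsMutation at h
  rw [map_mul, toLaurent_reverse] at h
  have h1 := congrArg E h
  rw [map_mul, map_mul, map_mul, map_add, map_mul, E_sym, E_sym, E_toLaurent, E_invert,
    E_T_sign hs, E_T, E_T] at h1
  set g : GaussianInt := (((ev c).norm : ℤ) : GaussianInt) +
    ((s * (ev x).norm : ℤ) : GaussianInt) * im with hg
  have h2 : (s : GaussianInt) * im * (((ev x).norm : ℤ) : GaussianInt) +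
      (((ev c).norm : ℤ) : GaussianInt) = g := by
    rw [hg]; push_cast; ring
  rw [h2] at h1
  constructor
  · have h3 := congrArg Zsqrtd.norm h1
    rw [Zsqrtd.norm_mul, Zsqrtd.norm_mul, Zsqrtd.norm_mul, norm_unit, norm_unit] at h3
    have h4 : (star (ev y)).norm = (ev y).norm := Zsqrtd.norm_conj _
    have h5 : g.norm = (ev x).norm ^ 2 + (ev c).norm ^ 2 := by
      rw [hg]
      rw [Zsqrtd.norm_def]
      have hs2 : s * s = 1 := by rcases hs with rfl | rfl <;> rfl
      simp [im]
      linear_combination ((ev x).norm) ^ 2 * hs2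
    rw [h4, h5] at h3
    linarith
  · have : ev z ∣ ((imu ^ (c.natDegree : ℤ) : GaussianIntˣ) : GaussianInt) * g :=
      ⟨_, h1.symm⟩
    exact (Units.isUnit (imu ^ (c.natDegree : ℤ))).dvd_mul_left.1 this

/-- The relation between the tree of polynomials and the numerical tree. -/
structure Rel (ε : ℤ) (a b c : ℤ[X]) (S : St) : Prop where
  e : S.e = ε
  a1 : a.eval 1 = S.ma
  b1 : b.eval 1 = S.mb
  c1 : c.eval 1 = S.mc
  na : (ev a).norm = S.ma
  nb : (ev b).norm = S.mb
  nc : (ev c).norm = S.mc
  dv : ev c ∣ ((S.mb : ℤ) : GaussianInt) + ((ε * S.ma : ℤ) : GaussianInt) * im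

theorem rel_root : Rel 1 1 (1 + X) (1 + 2 * X + 2 * X ^ 2) S0 := by
  have e1 : ev 1 = 1 := by simp [ev]
  have e2 : ev (1 + X) = ⟨1, 1⟩ := by
    simp [ev]; rfl
  have e3 : ev (1 + 2 * X + 2 * X ^ 2) = ⟨-1, 2⟩ := by
    have : ev (1 + 2 * X + 2 * X ^ 2) = 1 + 2 * im + 2 * im ^ 2 := by
      simp [ev]
    rw [this]; rfl
  refine ⟨rfl, by simp [S0], ?_, ?_, ?_, ?_, ?_, ?_⟩
  · simp [S0]
  · simp [S0]
  · rw [e1]; rfl
  · rw [e2]; rfl
  · rw [e3]; rfl
  · rw [e3]; exact ⟨⟨0, -1⟩, by decide⟩

theorem rel_step_left {ε : ℤ} {a b c z : ℤ[X]} {S : St} (hS : Good S) (h : Rel ε a b c S)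
    (hz : IsMutation ε a c b z) : Rel ε a c z (step false S) := by
  obtain ⟨he, a1, b1, c1, na, nb, nc, dv⟩ := h
  have hs : ε = 1 ∨ ε = -1 := he ▸ hS.he
  have k1 := mutation_one hz
  obtain ⟨k2, k3⟩ := mutation_i hs hz
  rw [a1, b1, c1] at k1
  rw [na, nb, nc] at k2
  rw [na, nc] at k3
  have hb : S.mb ≠ 0 := hS.pb.ne'
  refine ⟨he, a1, c1, ?_, na, nc, ?_, ?_⟩
  · show z.eval 1 = 3 * S.ma * S.mc - S.mb
    apply mul_right_cancel₀ hb
    linear_combination k1 + hS.mrk
  · show (ev z).norm = 3 * S.ma * S.mc - S.mb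
    apply mul_right_cancel₀ hb
    linear_combination k2 + hS.mrk
  · exact k3

theorem rel_step_right {ε : ℤ} {a b c z : ℤ[X]} {S : St} (hS : Good S) (h : Rel ε a b c S)
    (hz : IsMutation (-ε) b c a z) : Rel (-ε) b c z (step true S) := by
  obtain ⟨he, a1, b1, c1, na, nb, nc, dv⟩ := h
  have hs : -ε = 1 ∨ -ε = -1 := by
    rcases hS.he with h | h
    · right; rw [← he, h]
    · left; rw [← he, h]; rfl
  have k1 := mutation_one hz
  obtain ⟨k2, k3⟩ := mutation_i hs hz
  rw [a1, b1, c1] at k1
  rw [na, nb, nc] at k2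
  rw [nb, nc] at k3
  have ha : S.ma ≠ 0 := hS.pa.ne'
  refine ⟨?_, b1, c1, ?_, nb, nc, ?_, ?_⟩
  · show -S.e = -ε
    rw [he]
  · show z.eval 1 = 3 * S.mb * S.mc - S.ma
    apply mul_right_cancel₀ ha
    linear_combination k1 + hS.mrk
  · show (ev z).norm = 3 * S.mb * S.mc - S.ma
    apply mul_right_cancel₀ ha
    linear_combination k2 + hS.mrk
  · exact k3

theorem rel_of_at : ∀ {v : Pos} {ε : ℤ} {a b c : ℤ[X]}, At v ε a b c →
    ∀ w, v = Pos.node w → Rel ε a b c (dat w) := by
  intro v ε a b c h
  induction h with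
  | top0 => intro w hw; exact absurd hw (by simp)
  | top1 => intro w hw; exact absurd hw (by simp)
  | root =>
    intro w hw
    cases w with
    | nil => exact rel_root
    | cons x w => simp at hw
  | left w ε a b c z h hz ih =>
    intro w' hw
    cases w' with
    | nil => simp at hw
    | cons x w' =>
      simp only [Pos.node.injEq, List.cons.injEq] at hw
      obtain ⟨rfl, rfl⟩ := hw
      exact rel_step_left (good_dat w) (ih w rfl) hz
  | right w ε a b c z h hz ih =>
    intro w' hw
    cases w' with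
    | nil => simp at hw
    | cons x w' =>
      simp only [Pos.node.injEq, List.cons.injEq] at hw
      obtain ⟨rfl, rfl⟩ := hw
      exact rel_step_right (good_dat w) (ih w rfl) hz

/-- An integer divisible by a primitive Gaussian integer is divisible by its norm. -/
theorem dvd_of_primitive {γ : GaussianInt} {p q Z : ℤ} (hc : IsCoprime p q)
    (h : γ ∣ (p : GaussianInt) + (q : GaussianInt) * im) (hZ : γ ∣ (Z : GaussianInt)) :
    γ.norm ∣ Z := by
  obtain ⟨δ, hδ⟩ := hZ
  obtain ⟨η, hη⟩ := h
  have e1 : (Z : GaussianInt) * star γ = ((γ.norm : ℤ) : GaussianInt) * δ := by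
    rw [Zsqrtd.norm_eq_mul_conj, hδ]; ring
  have r1 := congrArg Zsqrtd.re e1
  have r2 := congrArg Zsqrtd.im e1
  have r3 := congrArg Zsqrtd.re hη
  have r4 := congrArg Zsqrtd.im hη
  simp [im] at r1 r2 r3 r4
  have d1 : γ.norm ∣ Z * γ.re := ⟨_, r1⟩
  have d2 : γ.norm ∣ Z * γ.im := ⟨-δ.im, by linarith⟩
  have d3 : γ.norm ∣ Z * p := by
    rw [r3]
    have : Z * (γ.re * η.re + -(γ.im * η.im)) = Z * γ.re * η.re - Z * γ.im * η.im := by ring
    rw [this]
    exact dvd_sub (d1.mul_right _) (d2.mul_right _)
  have d4 : γ.norm ∣ Z * q := by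
    rw [r4]
    have : Z * (γ.re * η.im + γ.im * η.re) = Z * γ.re * η.im + Z * γ.im * η.re := by ring
    rw [this]
    exact dvd_add (d1.mul_right _) (d2.mul_right _)
  obtain ⟨s, t, hst⟩ := hc
  have : Z = s * (Z * p) + t * (Z * q) := by linear_combination (-Z) * hst
  rw [this]
  exact dvd_add (d3.mul_left _) (d4.mul_left _)

theorem node_unique {w w' : List Bool} {ε ε' : ℤ} {a b c a' b' : ℤ[X]}
    (h : At (Pos.node w) ε a b c) (h' : At (Pos.node w') ε' a' b' c) : w = w' := by
  have hR := rel_of_at h w rfl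
  have hR' := rel_of_at h' w' rfl
  have hG := good_dat w
  have hG' := good_dat w'
  have hm : (dat w).mc = (dat w').mc := by rw [← hR.c1, ← hR'.c1]
  have he := hR.e
  have he' := hR'.e
  have hee : ε * ε = 1 := by
    rw [← he]; rcases hG.he with h | h <;> rw [h] <;> rfl
  have hee' : ε' * ε' = 1 := by
    rw [← he']; rcases hG'.he with h | h <;> rw [h] <;> rfl
  apply dat_inj ?_ hm
  -- the integer combination
  have hZ : ev c ∣ ((ε' * (dat w').ma * (dat w).mb - ε * (dat w).ma * (dat w').mb : ℤ) :
      GaussianInt) := by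
    have d1 := hR.dv.mul_left ((ε' * (dat w').ma : ℤ) : GaussianInt)
    have d2 := hR'.dv.mul_left ((ε * (dat w).ma : ℤ) : GaussianInt)
    have d3 := dvd_sub d1 d2
    convert d3 using 1
    push_cast
    ring
  have hdv := hR.dv
  have hcop : IsCoprime (dat w).mb (ε * (dat w).ma) := by
    obtain ⟨p, q, hpq⟩ := hG.cab
    exact ⟨q, p * ε, by linear_combination hpq + p * (dat w).ma * hee⟩
  have hd := dvd_of_primitive hcop hdv hZ
  rw [hR.nc] at hd
  -- reduce to the difference of the characteristic numbers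
  have i1 := hG.i1
  have i1' := hG'.i1
  rw [he] at i1
  rw [he'] at i1'
  have hd2 : (dat w).mc ∣ (ε * ε') * ((dat w).ma * (dat w').ma *
      ((dat w).uc - (dat w').uc)) := by
    have e : (ε * ε') * ((dat w).ma * (dat w').ma * ((dat w).uc - (dat w').uc)) =
        (ε' * (dat w').ma * (dat w).mb - ε * (dat w).ma * (dat w').mb) +
        (dat w).mc * (ε * ε' * ((dat w').ma * (dat w).ua - (dat w).ma * (dat w').ua)) := by
      rw [← i1, ← i1', hm]
      ring
    rw [e]
    exact dvd_add hd (dvd_mul_right _ _)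
  have hd3 : (dat w).mc ∣ (dat w).ma * ((dat w').ma * ((dat w).uc - (dat w').uc)) := by
    have e : (dat w).ma * ((dat w').ma * ((dat w).uc - (dat w').uc)) =
        (ε * ε') * ((ε * ε') * ((dat w).ma * (dat w').ma * ((dat w).uc - (dat w').uc))) := by
      linear_combination (-((dat w).ma * (dat w').ma * ((dat w).uc - (dat w').uc))) *
        (hee * (ε' * ε')) - ((dat w).ma * (dat w').ma * ((dat w).uc - (dat w').uc)) * hee'
    rw [e]
    exact hd2.mul_left _
  have hd4 := hG.cac.symm.dvd_of_dvd_mul_left hd3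
  have hcac' := hG'.cac
  rw [← hm] at hcac'
  have hd5 := hcac'.symm.dvd_of_dvd_mul_left hd4
  have b1 := hG.buc
  have b2 := hG'.buc
  rw [← hm] at b2
  have habs : |(dat w).uc - (dat w').uc| < (dat w).mc := by
    rw [abs_lt]; constructor <;> linarith [b1.1, b1.2, b2.1, b2.2]
  have := Int.eq_zero_of_abs_lt_dvd hd5 habs
  linarith

theorem mutation_unique {s : ℤ} {x c y z z' : ℤ[X]} (hy : y ≠ 0) (h : IsMutation s x c y z)
    (h' : IsMutation s x c y z') : z = z' := by
  unfold IsMutation at h h'
  rw [← h', Polynomial.toLaurent_inj] at h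
  exact mul_right_cancel₀ (by simpa using hy) h

theorem ne_zero_of_eval {x : ℤ[X]} {m : ℤ} (h : x.eval 1 = m) (hm : 0 < m) : x ≠ 0 := by
  rintro rfl
  simp at h
  omega

theorem triple_unique (w : List Bool) : ∀ {ε ε' : ℤ} {a b c a' b' c' : ℤ[X]},
    At (Pos.node w) ε a b c → At (Pos.node w) ε' a' b' c' →
    ε = ε' ∧ a = a' ∧ b = b' ∧ c = c' := by
  induction w with
  | nil =>
    intro ε ε' a b c a' b' c' h h'
    cases h
    cases h'
    exact ⟨rfl, rfl, rfl, rfl⟩
  | cons x w ih =>
    intro ε ε' a b c a' b' c' h h'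
    cases h with
    | left _ _ a0 b0 c0 z h hz =>
      cases h' with
      | left _ _ a1 b1 c1 z' h' hz' =>
        obtain ⟨rfl, rfl, rfl, rfl⟩ := ih h h'
        have hb := ne_zero_of_eval (rel_of_at h w rfl).b1 (good_dat w).pb
        exact ⟨rfl, rfl, rfl, mutation_unique hb hz hz'⟩
    | right _ _ a0 b0 c0 z h hz =>
      cases h' with
      | right _ _ a1 b1 c1 z' h' hz' =>
        obtain ⟨rfl, rfl, rfl, rfl⟩ := ih h h'
        have ha := ne_zero_of_eval (rel_of_at h w rfl).a1 (good_dat w).pa
        exact ⟨rfl, rfl, rfl, mutation_unique ha hz hz'⟩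

/-- The maximum determines the vertex of the mirror Markov tree: two positions whose triples
have the same maximum are equal, and carry the same triple. -/
theorem result {v v' : Pos} {ε ε' : ℤ} {a b c a' b' c' : ℤ[X]} (h : At v ε a b c)
    (h' : At v' ε' a' b' c') (hc : c = c') : v = v' ∧ a = a' ∧ b = b' := by
  subst hc
  have big : ∀ {w : List Bool} {ε : ℤ} {a b c : ℤ[X]}, At (Pos.node w) ε a b c →
      5 ≤ c.eval 1 := by
    intro w ε a b c h
    rw [(rel_of_at h w rfl).c1]
    exact (good_dat w).pc
  cases v with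
  | top0 =>
    cases v' with
    | top0 => cases h; cases h'; exact ⟨rfl, rfl, rfl⟩
    | top1 =>
      exfalso
      cases h
      have h1 : ∀ {ε : ℤ} {a b c : ℤ[X]}, At Pos.top1 ε a b c → c.eval 1 = 2 := by
        intro ε a b c h; cases h; simp
      have := h1 h'
      simp at this
    | node w' =>
      exfalso
      cases h
      have := big h'
      simp at this
  | top1 =>
    cases v' with
    | top0 =>
      exfalso
      cases h
      have h1 : ∀ {ε : ℤ} {a b c : ℤ[X]}, At Pos.top0 ε a b c → c.eval 1 = 1 := by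
        intro ε a b c h; cases h; simp
      have := h1 h'
      simp at this
    | top1 => cases h; cases h'; exact ⟨rfl, rfl, rfl⟩
    | node w' =>
      exfalso
      cases h
      have := big h'
      simp at this
  | node w =>
    cases v' with
    | top0 =>
      exfalso
      cases h'
      have := big h
      simp at this
    | top1 =>
      exfalso
      cases h'
      have := big h
      simp at this
    | node w' =>
      have hw := node_unique h h'
      subst hw
      obtain ⟨-, h1, h2, -⟩ := triple_unique w h h'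
      exact ⟨rfl, h1, h2⟩

end Pool.Agent.Results.MP_6870a6_co.MirrorMarkovUniqueness
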